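import Pool.Agent.QUD.StmtsX
import Pool.Agent.Helper5_PM.M120

/-!
# QUD, block X, row KGX: the triples of sides at the first level of an arbitrary polygon
-/

set_option autoImplicit false

namespace Pool.Agent.QUD.H43X

open MeasureTheory Complex Filter Topology Pool.Agent.H16Iso Pool.Agent.H62T
open Pool.Agent.H16F (Sublin ind)
open Pool.Agent.AEU Pool.Agent.XQ Pool.Agent.QUD

theorem dist3 {S : Finset HP} {i j q : HP} (e : S = {i, j, q}) (hc : S.card = 3) :
    i ≠ j ∧ i ≠ q ∧ j ≠ q := by
  classical
  rw [e] at hc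
  refine ⟨?_, ?_, ?_⟩
  · rintro rfl
    have := Finset.card_le_two (a := i) (b := q)
    simp at hc; omega
  · rintro rfl
    have := Finset.card_le_two (a := i) (b := j)
    rw [Finset.pair_comm j i] at hc; simp at hc; omega
  · rintro rfl
    have := Finset.card_le_two (a := i) (b := j)
    simp at hc; omega

theorem kgx (thr : ThrStmt) (_vxx : VxxStatement) (ghx : GhxStatement) (cl3 : Cl3Statement)
    (tax : TaxStatement) (tbx : TbxStatement) (brx : BrxStatement) (hell : EllStatement) :
    KgxStmt := by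
  classical
  intro X L hX hL hB S hS
  unfold N1 at hS
  rw [Finset.mem_filter, Finset.mem_powersetCard] at hS
  obtain ⟨⟨hSX, hc⟩, hnp, h0, s0, f0, t0, l0⟩ := hS
  -- no shorter body touches `S`
  have hn : ∀ h, Sublin h → Fits X h → S ⊆ touch X h → L ≤ AEU.lam h := by
    intro h hs hf ht
    by_contra hcon
    push Not at hcon
    have h1 := (hB h hs hf hcon).1
    have h2 := Finset.card_le_card ht
    omega
  have htr : ∀ h, Sublin h → Fits X h → S ⊆ touch X h → AEU.lam h ≤ L → touch X h = S := by
    intro h hs hf ht hl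
    exact (Finset.eq_of_subset_of_card_le ht (by rw [hc]; exact thr X L hX hB h hs hf hl)).symm
  by_cases hsp : ∃ h, Special X h ∧ S ⊆ touch X h ∧ AEU.lam h ≤ L
  · obtain ⟨h, h1, h2, h3⟩ := hsp
    have ht := htr h h1.sub h1.fits h2 h3
    have hl : AEU.lam h = L := le_antisymm h3 (hn h h1.sub h1.fits h2)
    have hmin : ∀ h', Special X h' → touch X h ⊆ touch X h' → AEU.lam h ≤ AEU.lam h' := by
      intro h' hs' ht'
      rw [hl]
      exact hn h' hs'.sub hs'.fits (by rw [← ht]; exact ht')
    rcases cl3 X hX h h1 (by rw [ht]; exact hc) hmin with ⟨i, j, k, v, w, hA⟩ | ⟨i, j, q, v, d, hT⟩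
    · right; right; left
      obtain ⟨_, e, _⟩ := tax X hX h i j k v w hA
      exact ⟨h, i, j, k, v, w, hA, by rw [← ht, e], hl⟩
    · obtain ⟨_, e, _, _, _, _, _, _, b⟩ := tbx X hX h i j q v d hT
      have e' : S = {i, j, q} := by rw [← ht, e]
      have hb := b (by rw [← e']; exact hnp)
      rw [hl] at hb
      rcases lt_trichotomy (ip i.1 j.1) 0 with o | o | o
      · exfalso
        obtain ⟨h', k1, k2, k3, k4⟩ := brx X hX h i j q v d hT o
        have := hn h' k1 k2 (by rw [e']; exact k3)
        rw [hl] at k4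
        linarith
      · right; left
        rw [o] at hb
        exact ⟨_, _, i, j, q, e', hc, hb⟩
      · right; right; right
        exact ⟨h, i, j, q, v, d, hT, e', hl, o⟩
  · left
    push Not at hsp
    have hG : Ghost X S :=
      ⟨hSX, hc, h0, s0, f0, t0, fun h' hs' ht' => l0.trans_lt (hsp h' hs' ht')⟩
    obtain ⟨ha, _, hpos, h1, g1, g2, g3, g4, g5⟩ := ghx X hX S hG
    have hle : ell S = L :=
      le_antisymm ((g5 h0 s0 f0 t0).trans l0) (by rw [← g4]; exact hn h1 g1 g2 (by rw [g3]))
    refine ⟨hc, fun s hs => hX.unit s (hSX hs), ha, hle, ?_⟩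
    intro i j q e
    obtain ⟨dij, diq, djq⟩ := dist3 e hc
    have mi : i ∈ S := by rw [e]; simp
    have mj : j ∈ S := by rw [e]; simp
    have mq : q ∈ S := by rw [e]; simp
    have halc := Pool.Agent.AEU.H40.alc i j q (hX.unit i (hSX mi)) (hX.unit j (hSX mj))
      (hX.unit q (hSX mq)) (ha i mi j mj dij) (ha i mi q mq diq) (ha j mj q mq djq)
    have h3 : ell3 i j q = L := by
      rw [← hle, e]
      exact (hell.1 i j q dij diq djq).symm
    have hD : 0 < q.2 - ip q.1 (vx i j) := by
      by_contra hcon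
      push Not at hcon
      have h4 := halc.1
      have h5 : 2 * |dt i.1 j.1| * (q.2 - ip q.1 (vx i j)) ≤ 0 :=
        mul_nonpos_of_nonneg_of_nonpos (by positivity) hcon
      linarith
    have h6 := (halc.2 hD).2.1
    linarith

end Pool.Agent.QUD.H43X
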