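import Pool.Agent.QUD.StmtsX

/-!
# QUD, block X: the tie T8, majorization of the corner sums (MP_5b0138_an)
-/

set_option autoImplicit false

namespace Pool.Agent.QUD.H43T

open Pool.Agent.QUD

/-- three numbers with a given sum in an interval: the sum of the inverses is largest at the ends -/
theorem inv3 {a b c q1 q2 q3 : ℝ} (ha : 0 < a) (hb : 0 < b) (h1 : a < q1) (h12 : q1 ≤ q2)
    (h23 : q2 ≤ q3) (h3 : q3 ≤ c) (hs : q1 + q2 + q3 = a + b + c) :
    1 / q1 + 1 / q2 + 1 / q3 < 1 / a + 1 / b + 1 / c := by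
  have p1 : 0 < q1 := ha.trans h1
  have p2 : 0 < q2 := p1.trans_le h12
  have p3 : 0 < q3 := p2.trans_le h23
  have pc : 0 < c := p3.trans_le h3
  have tang : ∀ x q : ℝ, 0 < x → 0 < q → 1 / q - (x - q) / q ^ 2 ≤ 1 / x := by
    intro x q hx hq
    have : 1 / x - (1 / q - (x - q) / q ^ 2) = (x - q) ^ 2 / (x * q ^ 2) := by
      field_simp
      ring
    have h : 0 ≤ (x - q) ^ 2 / (x * q ^ 2) := by positivity
    linarith
  have tangs : 1 / q1 - (a - q1) / q1 ^ 2 < 1 / a := by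
    have : 1 / a - (1 / q1 - (a - q1) / q1 ^ 2) = (a - q1) ^ 2 / (a * q1 ^ 2) := by
      field_simp
      ring
    have hne : a - q1 ≠ 0 := sub_ne_zero.2 h1.ne
    have h : 0 < (a - q1) ^ 2 / (a * q1 ^ 2) := by positivity
    linarith
  have t2 := tang b q2 hb p2
  have t3 := tang c q3 pc p3
  have e2 : b - q2 = (q1 - a) - (c - q3) := by linarith
  have i12 : 1 / q2 ^ 2 ≤ 1 / q1 ^ 2 :=
    one_div_le_one_div_of_le (by positivity) (pow_le_pow_left₀ p1.le h12 2)
  have i23 : 1 / q3 ^ 2 ≤ 1 / q2 ^ 2 :=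
    one_div_le_one_div_of_le (by positivity) (pow_le_pow_left₀ p2.le h23 2)
  have k1 : 0 ≤ (q1 - a) * (1 / q1 ^ 2 - 1 / q2 ^ 2) :=
    mul_nonneg (by linarith) (by linarith)
  have k2 : 0 ≤ (c - q3) * (1 / q2 ^ 2 - 1 / q3 ^ 2) :=
    mul_nonneg (by linarith) (by linarith)
  have r1 : (a - q1) / q1 ^ 2 = -((q1 - a) * (1 / q1 ^ 2)) := by ring
  have r2 : (b - q2) / q2 ^ 2 = (q1 - a) * (1 / q2 ^ 2) - (c - q3) * (1 / q2 ^ 2) := by
    rw [e2]; ring
  have r3 : (c - q3) / q3 ^ 2 = (c - q3) * (1 / q3 ^ 2) := by ring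
  rw [r1] at tangs
  rw [r2] at t2
  rw [r3] at t3
  nlinarith [tangs, t2, t3, k1, k2]

/-- the same without the order -/
theorem inv3' {a b c q1 q2 q3 : ℝ} (ha : 0 < a) (hb : 0 < b) (h1 : a < q1) (h2 : a < q2)
    (h3 : a < q3) (k1 : q1 ≤ c) (k2 : q2 ≤ c) (k3 : q3 ≤ c) (hs : q1 + q2 + q3 = a + b + c) :
    1 / q1 + 1 / q2 + 1 / q3 < 1 / a + 1 / b + 1 / c := by
  rcases le_total q1 q2 with m1 | m1 <;> rcases le_total q2 q3 with m2 | m2 <;>
    rcases le_total q1 q3 with m3 | m3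
  · exact inv3 ha hb h1 m1 m2 k3 hs
  · exact inv3 ha hb h1 m1 m2 k3 hs
  · have := inv3 ha hb h1 m3 m2 k2 (by linarith); linarith
  · have := inv3 ha hb h3 m3 m1 k2 (by linarith); linarith
  · have := inv3 ha hb h2 m1 m3 k3 (by linarith); linarith
  · have := inv3 ha hb h2 m2 m3 k1 (by linarith); linarith
  · have := inv3 ha hb h3 m2 m1 k1 (by linarith); linarith
  · have := inv3 ha hb h3 m2 m1 k1 (by linarith); linarith

/-- the corner term without its linear part -/
noncomputable def K0 (x : ℝ) : ℝ := Real.pi * x / (Real.pi - x)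

theorem gk_eq {x : ℝ} (h : x < Real.pi) : Gk x = (K0 x + x) / 6 := by
  have h1 : Real.pi - x ≠ 0 := (sub_pos.2 h).ne'
  unfold Gk K0
  field_simp
  ring

theorem k0_eq {x : ℝ} (h : x < Real.pi) : K0 x = Real.pi ^ 2 * (1 / (Real.pi - x)) - Real.pi := by
  have h1 : Real.pi - x ≠ 0 := (sub_pos.2 h).ne'
  unfold K0
  field_simp
  ring

/-- superadditivity -/
theorem k0_sum {ι : Type} (T : Finset ι) (x : ι → ℝ) (hx : ∀ k ∈ T, 0 < x k) {R : ℝ}
    (hR : ∑ k ∈ T, x k = R) (hRp : R < Real.pi) : ∑ k ∈ T, K0 (x k) ≤ K0 R := by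
  have h1 : 0 < Real.pi - R := by linarith
  have h2 : ∀ k ∈ T, K0 (x k) ≤ x k * (Real.pi / (Real.pi - R)) := by
    intro k hk
    have h3 : x k ≤ R := by
      rw [← hR]
      exact Finset.single_le_sum (fun i hi => (hx i hi).le) hk
    have h4 : Real.pi / (Real.pi - x k) ≤ Real.pi / (Real.pi - R) :=
      div_le_div_of_nonneg_left Real.pi_pos.le h1 (by linarith)
    calc K0 (x k) = x k * (Real.pi / (Real.pi - x k)) := by unfold K0; ring
      _ ≤ _ := mul_le_mul_of_nonneg_left h4 (hx k hk).le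
  calc ∑ k ∈ T, K0 (x k) ≤ ∑ k ∈ T, x k * (Real.pi / (Real.pi - R)) := Finset.sum_le_sum h2
    _ = K0 R := by rw [← Finset.sum_mul, hR]; unfold K0; ring

/-- majorization for three numbers -/
theorem maj3 {A B C y1 y2 y3 : ℝ} (hA : A < Real.pi) (hB : B < Real.pi) (hC : C < Real.pi)
    (a1 : y1 < A) (a2 : y2 < A) (a3 : y3 < A) (c1 : C ≤ y1) (c2 : C ≤ y2) (c3 : C ≤ y3)
    (hs : y1 + y2 + y3 = A + B + C) : K0 y1 + K0 y2 + K0 y3 < K0 A + K0 B + K0 C := by
  have h := inv3' (a := Real.pi - A) (b := Real.pi - B) (c := Real.pi - C) (q1 := Real.pi - y1)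
    (q2 := Real.pi - y2) (q3 := Real.pi - y3) (by linarith) (by linarith) (by linarith)
    (by linarith) (by linarith) (by linarith) (by linarith) (by linarith) (by linarith)
  rw [k0_eq (by linarith), k0_eq (x := y2) (by linarith), k0_eq (x := y3) (by linarith), k0_eq hA,
    k0_eq hB, k0_eq hC]
  have hp : 0 < Real.pi ^ 2 := by positivity
  nlinarith [mul_lt_mul_of_pos_left h hp]

/-- **T8A**.  A polygon with the exterior angles `β` which has a side with the exterior angles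
`π - b`, `π / 2 + f1` and a side with `π - c`, `π / 2 + f2`, `f1 ≠ f2`, has a smaller corner sum than
the quadrilateral with the exterior angles `π - b`, `π / 2 + η`, `π - c`, `b + c - π / 2 - η`. -/
theorem t8a (m : ℕ) [NeZero m] (β : Fin m → ℝ) (_hm : 3 ≤ m)
    (hβ : ∀ k, 0 < β k ∧ β k < Real.pi) (hsum : ∑ k, β k = 2 * Real.pi) (b c f1 f2 η : ℝ)
    (hb : Real.pi / 2 < b) (hb' : b < Real.pi) (hc : Real.pi / 2 < c) (hc' : c < Real.pi)
    (f10 : 0 ≤ f1) (f20 : 0 ≤ f2) (f1b : f1 < b - Real.pi / 2) (f2c : f2 < c - Real.pi / 2)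
    (hne : f1 ≠ f2) (η0 : 0 < η) (ηb : η < b - Real.pi / 2) (ηc : η < c - Real.pi / 2)
    (hW : b + c - Real.pi / 2 - η < Real.pi)
    (i j : Fin m)
    (hi : (β (i - 1) = Real.pi - b ∧ β i = Real.pi / 2 + f1) ∨
      (β (i - 1) = Real.pi / 2 + f1 ∧ β i = Real.pi - b))
    (hj : (β (j - 1) = Real.pi - c ∧ β j = Real.pi / 2 + f2) ∨
      (β (j - 1) = Real.pi / 2 + f2 ∧ β j = Real.pi - c)) :
    ∑ k, Gk (β k) < Gk (Real.pi - b) + Gk (Real.pi / 2 + η) + Gk (Real.pi - c) +
      Gk (b + c - Real.pi / 2 - η) := by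
  classical
  have hpi := Real.pi_pos
  -- the obtuse and the acute vertices
  obtain ⟨o1, u1, ho1, hu1, -⟩ : ∃ o u : Fin m, β o = Real.pi - b ∧ β u = Real.pi / 2 + f1 ∧
      True := by
    rcases hi with ⟨h1, h2⟩ | ⟨h1, h2⟩
    · exact ⟨_, _, h1, h2, trivial⟩
    · exact ⟨_, _, h2, h1, trivial⟩
  obtain ⟨o2, u2, ho2, hu2, -⟩ : ∃ o u : Fin m, β o = Real.pi - c ∧ β u = Real.pi / 2 + f2 ∧
      True := by
    rcases hj with ⟨h1, h2⟩ | ⟨h1, h2⟩
    · exact ⟨_, _, h1, h2, trivial⟩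
    · exact ⟨_, _, h2, h1, trivial⟩
  have n1 : u1 ≠ o1 := by rintro rfl; linarith
  have n2 : u2 ≠ o2 := by rintro rfl; linarith
  have n3 : u1 ≠ u2 := by
    rintro rfl
    exact hne (by linarith)
  have n4 : u1 ≠ o2 := by rintro rfl; linarith
  have n5 : u2 ≠ o1 := by rintro rfl; linarith
  -- reduction to `K0`
  have hG : ∑ k, Gk (β k) = (∑ k, K0 (β k) + 2 * Real.pi) / 6 := by
    rw [← hsum, ← Finset.sum_add_distrib, Finset.sum_div]
    exact Finset.sum_congr rfl fun k _ => gk_eq (hβ k).2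
  rw [hG, gk_eq (by linarith), gk_eq (x := Real.pi / 2 + η) (by linarith),
    gk_eq (x := Real.pi - c) (by linarith), gk_eq (x := b + c - Real.pi / 2 - η) (by linarith)]
  suffices hk : ∑ k, K0 (β k) < K0 (Real.pi - b) + K0 (Real.pi / 2 + η) + K0 (Real.pi - c) +
      K0 (b + c - Real.pi / 2 - η) by linarith
  by_cases hoo : o1 = o2
  · -- a common obtuse vertex
    subst hoo
    have hbc : b = c := by linarith
    subst hbc
    have s1 : ∀ F : ℝ → ℝ, ∑ k, F (β k) = F (β o1) + (F (β u1) + (F (β u2) +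
        ∑ k ∈ ((Finset.univ.erase o1).erase u1).erase u2, F (β k))) := by
      intro F
      rw [← Finset.add_sum_erase Finset.univ (fun k => F (β k)) (Finset.mem_univ o1),
        ← Finset.add_sum_erase (Finset.univ.erase o1) (fun k => F (β k))
          (Finset.mem_erase.2 ⟨n1, Finset.mem_univ u1⟩),
        ← Finset.add_sum_erase ((Finset.univ.erase o1).erase u1) (fun k => F (β k))
          (Finset.mem_erase.2 ⟨n3.symm, Finset.mem_erase.2 ⟨n5, Finset.mem_univ u2⟩⟩)]
    have s2 := s1 fun x => x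
    rw [hsum, ho1, hu1, hu2] at s2
    rw [s1 K0, ho1, hu1, hu2]
    set T := ((Finset.univ.erase o1).erase u1).erase u2 with hT
    have hR : ∑ k ∈ T, β k = b - f1 - f2 := by linarith
    have h1 := k0_sum T β (fun k _ => (hβ k).1) hR (by linarith)
    have h2 := maj3 (A := b + b - Real.pi / 2 - η) (B := Real.pi / 2 + η) (C := Real.pi - b)
      (y1 := Real.pi / 2 + f1) (y2 := Real.pi / 2 + f2) (y3 := b - f1 - f2) (by linarith)
      (by linarith) (by linarith) (by linarith) (by linarith) (by linarith) (by linarith)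
      (by linarith) (by linarith) (by linarith)
    linarith
  · have s1 : ∀ F : ℝ → ℝ, ∑ k, F (β k) = F (β o1) + (F (β o2) + (F (β u1) + (F (β u2) +
        ∑ k ∈ (((Finset.univ.erase o1).erase o2).erase u1).erase u2, F (β k)))) := by
      intro F
      rw [← Finset.add_sum_erase Finset.univ (fun k => F (β k)) (Finset.mem_univ o1),
        ← Finset.add_sum_erase (Finset.univ.erase o1) (fun k => F (β k))
          (Finset.mem_erase.2 ⟨fun h => hoo h.symm, Finset.mem_univ o2⟩),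
        ← Finset.add_sum_erase ((Finset.univ.erase o1).erase o2) (fun k => F (β k))
          (Finset.mem_erase.2 ⟨n4, Finset.mem_erase.2 ⟨n1, Finset.mem_univ u1⟩⟩),
        ← Finset.add_sum_erase (((Finset.univ.erase o1).erase o2).erase u1) (fun k => F (β k))
          (Finset.mem_erase.2 ⟨n3.symm, Finset.mem_erase.2 ⟨n2,
            Finset.mem_erase.2 ⟨n5, Finset.mem_univ u2⟩⟩⟩)]
    have s2 := s1 fun x => x
    rw [hsum, ho1, ho2, hu1, hu2] at s2
    rw [s1 K0, ho1, ho2, hu1, hu2]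
    set T := (((Finset.univ.erase o1).erase o2).erase u1).erase u2 with hT
    have hR : ∑ k ∈ T, β k = b + c - Real.pi - f1 - f2 := by linarith
    have h1 := k0_sum T β (fun k _ => (hβ k).1) hR (by linarith)
    have h2 := maj3 (A := b + c - Real.pi / 2 - η) (B := Real.pi / 2 + η) (C := 0)
      (y1 := Real.pi / 2 + f1) (y2 := Real.pi / 2 + f2) (y3 := b + c - Real.pi - f1 - f2)
      (by linarith) (by linarith) (by linarith) (by linarith) (by linarith) (by linarith)
      (by linarith) (by linarith) (by linarith) (by linarith)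
    have h3 : K0 0 = 0 := by unfold K0; simp
    linarith

end Pool.Agent.QUD.H43T
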