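import Pool.Agent.QUD.StmtsY
import Pool.Agent.Helper43_QUD.T8

/-!
# Squad QUD (MP_5b0138_an), row T8X: two equal sides at an acute vertex (helper43)

The corner invariant: if the quadrilateral has two equal sides at an acute vertex and the other polygon has the two sides of the
tie T8, the sum of the corner terms of the other polygon is smaller.
-/

set_option autoImplicit false

namespace Pool.Agent.QUD.H43T

open MeasureTheory Complex Filter Topology ProbabilityTheory Pool.Agent.H16Iso Pool.Agent.H62T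
open Pool.Agent.H16F (Sublin ind Nm CP len qa c0 Ar MatchStatement AlgStatement IsoStatement
  RunStatement CombStatement)
open Pool.Agent.AEU Pool.Agent.XQ Pool.Agent.QUD
open Pool.Agent.H1Gen (det CCW poly)
open Pool.Agent.H62T.H85 (nrm off)
open Pool.Agent.H16F.H69 (bt)

theorem ip_rot (z : ℂ) (t : ℝ) (hz : ‖z‖ = 1) : ip z (z * Complex.exp (t * I)) = Real.cos t := by
  have h1 : z.re * z.re + z.im * z.im = 1 := by
    have h2 := Complex.sq_norm z
    rw [hz, Complex.normSq_apply] at h2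
    linarith
  have h3 : Complex.exp (t * I) = ⟨Real.cos t, Real.sin t⟩ := by
    apply Complex.ext
    · rw [Complex.exp_ofReal_mul_I_re]
    · rw [Complex.exp_ofReal_mul_I_im]
  unfold ip
  rw [h3, Complex.mul_re, Complex.mul_im]
  simp only
  linear_combination (Real.cos t) * h1

theorem ang {t x : ℝ} (ht0 : 0 < t) (ht1 : t < Real.pi) (hx0 : 0 < x) (hx1 : x < Real.pi)
    (h : Real.cos t = -Real.cos x) : t = Real.pi - x := by
  rw [← Real.cos_pi_sub] at h
  exact Real.injOn_cos ⟨ht0.le, ht1.le⟩ ⟨by linarith, by linarith⟩ h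

theorem sum4 (i : Fin 4) (f : Fin 4 → ℝ) :
    ∑ j, f j = f i + f (i + 1) + f (i + 2) + f (i + 3) := by
  rw [Fin.sum_univ_four]
  fin_cases i
  · rfl
  · change f 0 + f 1 + f 2 + f 3 = f 1 + f 2 + f 3 + f 0
    ring
  · change f 0 + f 1 + f 2 + f 3 = f 2 + f 3 + f 0 + f 1
    ring
  · change f 0 + f 1 + f 2 + f 3 = f 3 + f 0 + f 1 + f 2
    ring

/-- **T8X** -/
theorem t8x (hQsd : QsdStmt) (hCys : CysStmt) (hCof : CofStmt) (hMatch : MatchStatement) :
    T8xStmt := by
  intro m _ v w hv hm hw hiso hal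
  obtain ⟨a, b, c, d, L, x, y, z, f1, f2, l1, l2, hP, hcyc, dab, dda, hx, f10, f1y, f20, f2z, hne,
    s1, s2⟩ := hal
  have hpi := Real.pi_pos
  have h34 : 3 ≤ 4 := by norm_num
  have hm3 : 3 ≤ m := by omega
  have cv : CP (nrm v) (off v) (bt v) := Pool.Agent.H16F.H69.cp_of_cc h34 hv
  have cw : CP (nrm w) (off w) (bt w) := Pool.Agent.H16F.H69.cp_of_cc hm3 hw
  have pv : poly v = H62T.Poly (nrm v) (off v) := Pool.Agent.H62T.H85.poly_eq h34 hv
  have pw : poly w = H62T.Poly (nrm w) (off w) := Pool.Agent.H62T.H85.poly_eq hm3 hw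
  rw [pv, pw] at hiso
  obtain ⟨-, -, hC, -⟩ := hMatch 4 m (nrm v) (off v) (bt v) (nrm w) (off w) (bt w) cv cw hiso
  obtain ⟨i, ha, hb, hc, hd, -⟩ := (hQsd v hv).2 a b c d hP hcyc
  have pos := Pool.Agent.H16F.H69.bt_pos h34 hv
  have ltp := Pool.Agent.H16F.H69.bt_lt h34 hv
  have cosb : ∀ j, ip (nrm v j) (nrm v (j + 1)) = Real.cos (bt v j) := fun j => by
    rw [Pool.Agent.H16F.H69.step_bt h34 hv j]
    exact ip_rot _ _ (Pool.Agent.H62T.H85.norm_nrm h34 hv j)
  -- the angles of the quadrilateral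
  have e0 : bt v i = Real.pi - x := by
    refine ang (pos i) (ltp i) dab.x0 dab.x1 ?_
    rw [← cosb i, ← dab.cx, ha, hb]
    rfl
  have e1 : bt v (i + 1) = Real.pi - y := by
    refine ang (pos _) (ltp _) dab.y0 dab.y1 ?_
    rw [← cosb (i + 1), ← dab.cy, hb, hc]
    have : i + 1 + 1 = i + 2 := by
      have : ∀ i : Fin 4, i + 1 + 1 = i + 2 := by decide
      exact this i
    rw [this]
    rfl
  have e3 : bt v (i + 3) = Real.pi - z := by
    refine ang (pos _) (ltp _) dda.x0 dda.x1 ?_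
    rw [← cosb (i + 3), ← dda.cx, hd, ha]
    have : i + 3 + 1 = i := by
      have : ∀ i : Fin 4, i + 3 + 1 = i := by decide
      exact this i
    rw [this]
    rfl
  have hs := Pool.Agent.H16F.H69.sum_bt h34 hv
  rw [sum4 i] at hs
  have e2 : bt v (i + 2) = y + z - Real.pi / 2 - (Real.pi / 2 - x) := by linarith
  have hx0 := dab.x0
  have s1' := dab.sum
  have s2' := dda.sum
  have hy : Real.pi / 2 < y := by linarith
  have hz : Real.pi / 2 < z := by linarith
  have hy1 := dab.y1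
  have hz1 := dda.x1
  have hW := ltp (i + 2)
  rw [e2] at hW
  -- the sides of the other polygon
  obtain ⟨j1, -, hj1⟩ := hCys m w hm3 hw y (Real.pi / 2 - f1) l1 (by linarith) hy1
    (by linarith) (by linarith) s1
  obtain ⟨j2, -, hj2⟩ := hCys m w hm3 hw z (Real.pi / 2 - f2) l2 (by linarith) hz1
    (by linarith) (by linarith) s2
  have r1 : Real.pi - (Real.pi / 2 - f1) = Real.pi / 2 + f1 := by ring
  have r2 : Real.pi - (Real.pi / 2 - f2) = Real.pi / 2 + f2 := by ring
  rw [r1] at hj1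
  rw [r2] at hj2
  have key := t8a m (bt w) hm3
    (fun k => ⟨Pool.Agent.H16F.H69.bt_pos hm3 hw k, Pool.Agent.H16F.H69.bt_lt hm3 hw k⟩)
    (Pool.Agent.H16F.H69.sum_bt hm3 hw) y z f1 f2 (Real.pi / 2 - x) hy hy1 hz hz1 f10 f20 f1y f2z
    hne (by linarith) (by linarith) (by linarith) hW j1 j2 hj1 hj2
  have hG : ∑ k, Gk (bt w k) = ∑ k, Gk (bt v k) := by
    have h6 : ∀ j, c0 (bt w j) = Gk (bt w j) := fun j =>
      hCof _ (Pool.Agent.H16F.H69.bt_pos hm3 hw j) (Pool.Agent.H16F.H69.bt_lt hm3 hw j)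
    have h7 : ∀ j, c0 (bt v j) = Gk (bt v j) := fun j => hCof _ (pos j) (ltp j)
    calc ∑ k, Gk (bt w k) = ∑ k, c0 (bt w k) := Finset.sum_congr rfl fun j _ => (h6 j).symm
      _ = ∑ k, c0 (bt v k) := hC.symm
      _ = ∑ k, Gk (bt v k) := Finset.sum_congr rfl fun j _ => h7 j
  rw [hG, sum4 i, e0, e1, e2, e3] at key
  have r3 : Real.pi / 2 + (Real.pi / 2 - x) = Real.pi - x := by ring
  rw [r3] at key
  linarith

end Pool.Agent.QUD.H43T
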